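import Pool.Agent.Results.MP_a20daa_co.BandwidthLower

/-! The former hand-in `ConstantLower`, derived from `BandwidthLower`: cycles have bandwidth two. -/

set_option autoImplicit false

namespace Pool.Agent.Lib.MP_a20daa_co.Variants.ConstantLower

/-- The order `0, k - 1, 1, k - 2, ...` on the cycle. -/
def zig {k : ℕ} (j : Fin k) : Fin k :=
  ⟨if 2 * (j : ℕ) < k then 2 * j else 2 * (k - 1 - j) + 1, by have := j.2; split_ifs <;> omega⟩

lemma zig_inj {k : ℕ} : Function.Injective (zig (k := k)) := fun a b h => by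
  have h1 := congrArg Fin.val h
  have := a.2
  have := b.2
  simp only [zig] at h1
  refine Fin.ext ?_
  split_ifs at h1 <;> omega

lemma zig_adj {k : ℕ} {a b : Fin k} (h : (SimpleGraph.cycleGraph k).Adj a b) :
    (zig a : ℕ) ≤ zig b + 2 := by
  have ha := a.2
  have hb := b.2
  have h1 := SimpleGraph.cycleGraph_adj'.1 h
  have key : ∀ u v : Fin k, (u - v).val = 1 → (u : ℕ) = v + 1 ∨ (u : ℕ) + k = v + 1 := by
    intro u v huv
    have hu := u.2
    have hv := v.2
    rcases le_or_gt v u with h2 | h2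
    · rw [Fin.sub_val_of_le h2] at huv
      omega
    · have h3 : (u : ℕ) < v := h2
      rw [Fin.sub_def] at huv
      simp only at huv
      rw [Nat.mod_eq_of_lt (by omega)] at huv
      omega
  simp only [zig]
  rcases h1 with h1 | h1 <;> have := key _ _ h1 <;> split_ifs <;> omega

theorem cycles (k : ℕ) (W : Type) (H : SimpleGraph W)
    (hg : ∃ g : H →g SimpleGraph.cycleGraph k, Function.Injective g) (N : ℕ) :
    ∃ n : ℕ, N ≤ n ∧ ∃ G : SimpleGraph (Fin n), G.Connected ∧ ∀ D : Finset (Fin n),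
      (¬ ∃ f : H →g G, Function.Injective f ∧ ∀ x : W, f x ∉ D ∧ ∀ d ∈ D, ¬ G.Adj d (f x)) →
      2 * n ≤ min 36 (k + 6) * D.card := by
  obtain ⟨g, hg⟩ := hg
  exact Pool.Agent.Results.MP_a20daa_co.BandwidthLower.result k 2 (by norm_num) W H
    (fun x => zig (g x)) (zig_inj.comp hg) (fun x y h => zig_adj (g.map_adj h)) N

theorem paths (k N : ℕ) :
    ∃ n : ℕ, N ≤ n ∧ ∃ G : SimpleGraph (Fin n), G.Connected ∧ ∀ D : Finset (Fin n),
      (¬ ∃ f : SimpleGraph.pathGraph k →g G, Function.Injective f ∧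
        ∀ x, f x ∉ D ∧ ∀ d ∈ D, ¬ G.Adj d (f x)) → 2 * n ≤ min 18 (k + 4) * D.card :=
  Pool.Agent.Results.MP_a20daa_co.BandwidthLower.result k 1 le_rfl _ _ id Function.injective_id
    (fun x y h => by have := SimpleGraph.pathGraph_adj.1 h; simp only [id]; omega) N

theorem result : ∃ C : ℕ, ∀ k : ℕ, 3 ≤ k → ∀ (W : Type) (H : SimpleGraph W),
    (∃ g : H →g SimpleGraph.cycleGraph k, Function.Injective g) →
    ∀ N : ℕ, ∃ n : ℕ, N ≤ n ∧ ∃ G : SimpleGraph (Fin n), G.Connected ∧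
      ∀ D : Finset (Fin n),
        (¬ ∃ f : H →g G, Function.Injective f ∧ ∀ x : W, f x ∉ D ∧ ∀ d ∈ D, ¬ G.Adj d (f x)) →
        n ≤ C * D.card := by
  refine ⟨18, fun k _ W H hg N => ?_⟩
  obtain ⟨n, h1, G, h2, h3⟩ := cycles k W H hg N
  refine ⟨n, h1, G, h2, fun D hD => ?_⟩
  have := (h3 D hD).trans (Nat.mul_le_mul_right _ (min_le_left _ _))
  omega

end Pool.Agent.Lib.MP_a20daa_co.Variants.ConstantLower
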