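import Pool.Agent.Lib.MP_a20daa_co.Expander

set_option autoImplicit false

namespace Pool.Agent.Lib.MP_a20daa_co.Variants.ConstantLowerOld

open Finset Pool.Agent.Lib.MP_a20daa_co

/-- There is an absolute constant `C` such that for every `k ≥ 3` and every subgraph `H` of the
cycle `C_k` (in particular `C_k` and `P_j`, `j ≤ k`) there are arbitrarily large connected graphs
all of whose `H`-isolating sets have at least `n / C` vertices. -/
theorem result : ∃ C : ℕ, ∀ k : ℕ, 3 ≤ k → ∀ (W : Type) (H : SimpleGraph W),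
    (∃ g : H →g SimpleGraph.cycleGraph k, Function.Injective g) →
    ∀ N : ℕ, ∃ n : ℕ, N ≤ n ∧ ∃ G : SimpleGraph (Fin n), G.Connected ∧
      ∀ D : Finset (Fin n),
        (¬ ∃ f : H →g G, Function.Injective f ∧ ∀ x : W, f x ∉ D ∧ ∀ d ∈ D, ¬ G.Adj d (f x)) →
        n ≤ C * D.card := by
  classical
  refine ⟨32 * 5987, fun k hk W H ⟨g, hg⟩ N => ?_⟩
  obtain ⟨B, nb, hnb, hself, hadj, hcyc⟩ := exists_base k hk
  obtain ⟨n, hn⟩ : ∃ n, n + 1 = (N + 1) * (k * 2) := ⟨(N + 1) * (k * 2) - 1, by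
    have : 0 < (N + 1) * (k * 2) := by positivity
    omega⟩
  let e : Fin (n + 1) ≃ Fin (N + 1) × Fin k × Fin 2 := Fintype.equivOfCardEq (by simp [hn])
  let G : SimpleGraph (Fin (n + 1)) := SimpleGraph.fromRel fun i j =>
    (i : ℕ) + 1 = j ∨ ((e i).1 = (e j).1 ∧ ((e i).2.1 = (e j).2.1 ∨ B.Adj (e i).2.1 (e j).2.1))
  refine ⟨n + 1, by nlinarith, G, (SimpleGraph.pathGraph_connected n).mono fun i j h => ?_,
    fun D hD => ?_⟩
  · have h1 := SimpleGraph.pathGraph_adj.1 h
    refine (SimpleGraph.fromRel_adj _ _ _).2 ⟨h.ne, ?_⟩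
    rcases h1 with h1 | h1
    · exact Or.inl (Or.inl h1)
    · exact Or.inr (Or.inl h1)
  let pr : Fin (n + 1) → Fin (N + 1) × Fin k := fun i => ((e i).1, (e i).2.1)
  let tch : Fin (n + 1) → Finset (Fin (N + 1) × Fin k) := fun d =>
    (nb (e d).2.1).image (fun w => ((e d).1, w)) ∪
      (univ.filter fun j : Fin (n + 1) => (d : ℕ) + 1 = j ∨ (j : ℕ) + 1 = d).image pr
  have h1 : ∀ d, (tch d).card ≤ 5987 := fun d => by
    have h2 : (univ.filter fun j : Fin (n + 1) => (d : ℕ) + 1 = j ∨ (j : ℕ) + 1 = d).card ≤ 2 := by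
      refine (card_le_card_of_injOn (t := ({(d : ℕ) + 1, (d : ℕ) - 1} : Finset ℕ)) Fin.val
        (fun j hj => ?_) (fun _ _ _ _ h => Fin.ext h)).trans card_le_two
      have := (mem_filter.1 hj).2
      simp only [coe_insert, coe_singleton, Set.mem_insert_iff, Set.mem_singleton_iff]
      omega
    have h3 := hnb (e d).2.1
    exact (card_union_le _ _).trans (by
      have := add_le_add (card_image_le (s := nb (e d).2.1) (f := fun w => ((e d).1, w)))
        (card_image_le (s := univ.filter fun j : Fin (n + 1) => (d : ℕ) + 1 = j ∨ (j : ℕ) + 1 = d)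
          (f := pr))
      omega)
  have h2 : ∀ d j, (j = d ∨ G.Adj d j) → pr j ∈ tch d := by
    rintro d j (rfl | h)
    · exact mem_union_left _ (mem_image.2 ⟨_, hself _, rfl⟩)
    · obtain ⟨-, (h | ⟨h, h' | h'⟩) | (h | ⟨h, h' | h'⟩)⟩ := (SimpleGraph.fromRel_adj _ _ _).1 h
      · exact mem_union_right _ (mem_image.2 ⟨j, mem_filter.2 ⟨mem_univ _, Or.inl h⟩, rfl⟩)
      · exact mem_union_left _ (mem_image.2 ⟨_, hself _, Prod.ext h h'⟩)
      · exact mem_union_left _ (mem_image.2 ⟨_, hadj _ _ h', Prod.ext h rfl⟩)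
      · exact mem_union_right _ (mem_image.2 ⟨j, mem_filter.2 ⟨mem_univ _, Or.inr h⟩, rfl⟩)
      · exact mem_union_left _ (mem_image.2 ⟨_, hself _, Prod.ext h.symm h'.symm⟩)
      · exact mem_union_left _ (mem_image.2 ⟨_, hadj _ _ h'.symm, Prod.ext h.symm rfl⟩)
  let X := D.biUnion tch
  have h3 : X.card ≤ D.card * 5987 := card_biUnion_le_card_mul _ _ _ fun d _ => h1 d
  let R : Fin (N + 1) → Finset (Fin k) := fun a => univ.filter fun w => (a, w) ∈ X
  have h4 : ∑ a, (R a).card = X.card := by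
    rw [card_eq_sum_card_fiberwise (s := X) (t := univ) (f := Prod.fst) (by simp)]
    refine sum_congr rfl fun a _ => card_bij (fun w _ => (a, w)) (fun w hw => ?_)
      (fun w _ w' _ h => (Prod.mk.inj h).2) (fun b hb => ?_)
    · exact mem_filter.2 ⟨(mem_filter.1 hw).2, rfl⟩
    · obtain ⟨h5, h6⟩ := mem_filter.1 hb
      refine ⟨b.2, mem_filter.2 ⟨mem_univ _, ?_⟩, ?_⟩ <;> rw [← h6]
      exact h5
  by_contra hlt
  have h5 : ∃ a, 16 * (R a).card ≤ k := by
    by_contra h5
    push Not at h5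
    have h6 : (univ : Finset (Fin (N + 1))).card • k ≤ ∑ a, 16 * (R a).card :=
      card_nsmul_le_sum _ _ _ fun a _ => (h5 a).le
    rw [← mul_sum, h4, card_univ, Fintype.card_fin, smul_eq_mul] at h6
    apply hlt
    have h7 : (N + 1) * (k * 2) = 2 * ((N + 1) * k) := by ring
    omega
  obtain ⟨a, ha⟩ := h5
  obtain ⟨l, p, hl1, hl2, hp1, hp2, hp3, hp4⟩ := hcyc _ ha
  let β : ℕ → ℕ := fun t => if t < 2 * (k - l) then t / 2 else t - (k - l)
  let γ : ℕ → Fin 2 := fun t => if t < 2 * (k - l) then ⟨t % 2, Nat.mod_lt _ (by norm_num)⟩ else 0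
  have hβ : ∀ t < k, β t < l := fun t ht => by
    simp only [β]
    split_ifs <;> omega
  let φ : Fin k → Fin (n + 1) := fun t => e.symm (a, p (β t), γ t)
  have hφ : Function.Injective φ := by
    intro t t' h
    have h6 := e.symm.injective h
    simp only [Prod.mk.injEq, true_and] at h6
    have h7 := hp2 _ (hβ _ t.2) _ (hβ _ t'.2) h6.1
    have h8 := congrArg Fin.val h6.2
    apply Fin.ext
    simp only [β, γ] at h7 h8
    split_ifs at h7 h8 <;> simp at h8 <;> omega
  have h6 : ∀ u v : Fin k, ((u - v : Fin k) : ℕ) = 1 → G.Adj (φ u) (φ v) := by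
    intro u v h
    have h7 : (u : ℕ) = v + 1 ∨ ((u : ℕ) = 0 ∧ (v : ℕ) + 1 = k) := by
      rw [Fin.sub_def] at h
      simp only at h
      have hu := u.2
      have hv := v.2
      rcases Nat.lt_or_ge (k - v + u) k with h8 | h8
      · rw [Nat.mod_eq_of_lt h8] at h
        omega
      · rw [Nat.mod_eq_sub_mod h8, Nat.mod_eq_of_lt (by omega)] at h
        omega
    refine (SimpleGraph.fromRel_adj _ _ _).2 ⟨fun h8 => ?_, ?_⟩
    · have := congrArg Fin.val (hφ h8)
      omega
    · simp only [φ, Equiv.apply_symm_apply, true_and]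
      rcases h7 with h7 | h7
      · have h8 : β u = β v ∨ β u = β v + 1 := by
          simp only [β]
          split_ifs <;> omega
        rcases h8 with h8 | h8
        · exact Or.inl (Or.inr (Or.inl (by rw [h8])))
        · refine Or.inr (Or.inr (Or.inr ?_))
          rw [h8]
          exact hp3 _ (h8 ▸ hβ _ u.2)
      · have h8 : β u = 0 := by
          simp only [β]
          split_ifs <;> omega
        have h9 : β v = l - 1 := by
          simp only [β]
          split_ifs <;> omega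
        refine Or.inl (Or.inr (Or.inr ?_))
        rw [h8, h9]
        exact hp4
  let ψ : SimpleGraph.cycleGraph k →g G := ⟨φ, fun {u v} h => by
    rcases SimpleGraph.cycleGraph_adj'.1 h with h | h
    · exact h6 u v h
    · exact (h6 v u h).symm⟩
  have h7 : ∀ t, ∀ d ∈ D, ¬ (φ t = d ∨ G.Adj d (φ t)) := fun t d hd h => by
    refine hp1 _ (hβ _ t.2) (mem_filter.2 ⟨mem_univ _, mem_biUnion.2 ⟨d, hd, ?_⟩⟩)
    simpa [pr, φ] using h2 d _ h
  exact hD ⟨ψ.comp g, hφ.comp hg, fun x => ⟨fun h => h7 (g x) _ h (Or.inl rfl),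
    fun d hd h => h7 (g x) d hd (Or.inr h)⟩⟩

end Pool.Agent.Lib.MP_a20daa_co.Variants.ConstantLowerOld
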