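import Pool.Agent.FS.FifthUp.Phase

set_option autoImplicit false

namespace Pool.Agent.Lib.MP_a20daa_co.Variants.FifthUpper

/-- Every graph on `n` vertices has a set of at most `(1 / 5 + 4 / k) n` vertices that isolates all
connected graphs on at least `k` vertices. -/
theorem result (k n : ℕ) (G : SimpleGraph (Fin n)) : ∃ D : Finset (Fin n),
    5 * k * D.card ≤ (k + 20) * n ∧ ∀ (W : Type) (H : SimpleGraph W), H.Connected →
      k ≤ Nat.card W →
      ¬ ∃ f : H →g G, Function.Injective f ∧ ∀ x : W, f x ∉ D ∧ ∀ d ∈ D, ¬ G.Adj d (f x) :=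
  Pool.Agent.FS.FifthUp.main k n G

end Pool.Agent.Lib.MP_a20daa_co.Variants.FifthUpper
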